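import Pool.Agent.H32.Lempert

/-!
# A smooth bounded non-pseudoconvex domain with continuous Lempert function

For every `n ≥ 2` the spherical shell `{x ∈ ℂⁿ : 1 < ‖x‖ < 2}` is a bounded domain with real
analytic boundary whose Lempert function is finite and continuous, but which is not pseudoconvex.
-/

namespace Pool.Agent.Results.MP_5a1ff8_an.ShellCounterexample

open Metric Set Filter Topology
open scoped ENNReal
open Pool.Agent.H32

/-- `D` has `C^k` boundary: near each boundary point `D` is given by `{ρ < 0}` for a real valued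
`C^k` function `ρ` with non-vanishing differential. -/
def HasSmoothBoundary {n : ℕ} (k : WithTop ℕ∞) (D : Set (Cn n)) : Prop :=
  ∀ p ∈ frontier D, ∃ U : Set (Cn n), IsOpen U ∧ p ∈ U ∧ ∃ ρ : Cn n → ℝ,
    ContDiffOn ℝ k ρ U ∧ (∀ x ∈ U, fderiv ℝ ρ x ≠ 0) ∧ D ∩ U = {x ∈ U | ρ x < 0}

/-- `u` is a continuous plurisubharmonic function on `D`: it is continuous on `D` and satisfies the
sub-mean value inequality on every closed affine complex disc contained in `D`. -/
def IsContinuousPSH {n : ℕ} (D : Set (Cn n)) (u : Cn n → ℝ) : Prop :=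
  ContinuousOn u D ∧ ∀ a v : Cn n, (∀ ζ : ℂ, ‖ζ‖ ≤ 1 → a + ζ • v ∈ D) →
    u a ≤ Real.circleAverage (fun ζ : ℂ => u (a + ζ • v)) 0 1

/-- `D` is pseudoconvex: it has a continuous plurisubharmonic exhaustion function, that is, all
sublevel sets `{x ∈ D : u x ≤ c}` are relatively compact in `D`. -/
def IsPseudoconvex {n : ℕ} (D : Set (Cn n)) : Prop :=
  ∃ u : Cn n → ℝ, IsContinuousPSH D u ∧ ∀ c : ℝ, ∃ K : Set (Cn n), IsCompact K ∧ K ⊆ D ∧
    {x ∈ D | u x ≤ c} ⊆ K

/-- The spherical shell `{1 < ‖x‖ < 2}` in `ℂⁿ`. -/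
def Shell (n : ℕ) : Set (Cn n) := {x | 1 < ‖x‖ ∧ ‖x‖ < 2}

lemma isOpen_shell (n : ℕ) : IsOpen (Shell n) := by
  apply IsOpen.and
  · exact isOpen_lt continuous_const continuous_norm
  · exact isOpen_lt continuous_norm continuous_const

lemma isBounded_shell (n : ℕ) : Bornology.IsBounded (Shell n) := by
  apply isBounded_ball (x := (0 : Cn n)) (r := 2) |>.subset
  intro x hx
  rw [mem_ball_zero_iff]; exact hx.2

lemma one_lt_rank {n : ℕ} (hn : 1 ≤ n) : 1 < Module.rank ℝ (Cn n) := by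
  have h1 : Module.finrank ℝ (Cn n) = 2 * n := by
    rw [finrank_real_of_complex, finrank_euclideanSpace_fin]
  have h2 : Module.rank ℝ (Cn n) = ((2 * n : ℕ) : Cardinal) := by
    rw [← h1, Module.finrank_eq_rank]
  rw [h2]
  exact_mod_cast (by omega : 1 < 2 * n)

lemma isConnected_shell {n : ℕ} (hn : 1 ≤ n) : IsConnected (Shell n) := by
  have h1 : Shell n = (fun p : ℝ × Cn n => p.1 • p.2) '' (Ioo 1 2 ×ˢ sphere 0 1) := by
    ext x
    constructor
    · intro hx
      have hx0 : ‖x‖ ≠ 0 := by have := hx.1; positivity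
      refine ⟨(‖x‖, ‖x‖⁻¹ • x), ⟨hx, ?_⟩, ?_⟩
      · rw [mem_sphere_zero_iff_norm, norm_smul, norm_inv, norm_norm, inv_mul_cancel₀ hx0]
      · show ‖x‖ • ‖x‖⁻¹ • x = x
        rw [smul_smul, mul_inv_cancel₀ hx0, one_smul]
    · rintro ⟨⟨t, y⟩, ⟨ht, hy⟩, rfl⟩
      rw [mem_sphere_zero_iff_norm] at hy
      simp only at ht hy ⊢
      have ht0 : 0 < t := by linarith [ht.1]
      have : ‖t • y‖ = t := by
        rw [norm_smul, hy, mul_one, Real.norm_eq_abs, abs_of_pos ht0]
      show 1 < ‖t • y‖ ∧ ‖t • y‖ < 2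
      rw [this]
      exact ht
  rw [h1]
  apply IsConnected.image
  · apply IsConnected.prod
    · exact isConnected_Ioo (by norm_num)
    · exact isConnected_sphere (one_lt_rank hn) 0 zero_le_one
  · fun_prop

lemma fderiv_norm_sq_ne_zero {n : ℕ} {x : Cn n} (hx : x ≠ 0) :
    fderiv ℝ (fun y : Cn n => ‖y‖ ^ 2) x ≠ 0 := by
  intro h
  have h1 : fderiv ℝ (fun y : Cn n => ‖y‖ ^ 2) x x = 2 * ‖x‖ ^ 2 := by
    have h2 : HasFDerivAt (fun y : Cn n => ‖y‖ ^ 2) (2 • (innerSL ℝ x)) x :=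
      (hasStrictFDerivAt_norm_sq x).hasFDerivAt
    rw [h2.fderiv]
    simp
  rw [h] at h1
  have h3 : 0 < ‖x‖ := norm_pos_iff.mpr hx
  simp only [zero_apply] at h1
  nlinarith

lemma hasSmoothBoundary_shell (n : ℕ) (k : WithTop ℕ∞) : HasSmoothBoundary k (Shell n) := by
  intro p hp
  have hsub : frontier (Shell n) ⊆ {x : Cn n | 1 ≤ ‖x‖ ∧ ‖x‖ ≤ 2} \ Shell n := by
    rw [(isOpen_shell n).frontier_eq]
    apply sdiff_subset_sdiff_left
    apply closure_minimal
    · intro x hx; exact ⟨hx.1.le, hx.2.le⟩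
    · exact (isClosed_le continuous_const continuous_norm).inter
        (isClosed_le continuous_norm continuous_const)
  have hp' := hsub hp
  obtain ⟨⟨h1, h2⟩, h3⟩ := hp'
  have h4 : ‖p‖ = 1 ∨ ‖p‖ = 2 := by
    by_contra hne
    push Not at hne
    exact h3 ⟨lt_of_le_of_ne h1 (Ne.symm hne.1), lt_of_le_of_ne h2 hne.2⟩
  rcases h4 with h4 | h4
  · -- inner sphere
    refine ⟨{x : Cn n | 0 < ‖x‖ ∧ ‖x‖ < 2}, ?_, ?_, fun x => 1 - ‖x‖ ^ 2, ?_, ?_, ?_⟩
    · apply IsOpen.and
      · exact isOpen_lt continuous_const continuous_norm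
      · exact isOpen_lt continuous_norm continuous_const
    · show 0 < ‖p‖ ∧ ‖p‖ < 2
      rw [h4]; norm_num
    · apply ContDiff.contDiffOn
      exact contDiff_const.sub (contDiff_norm_sq ℝ)
    · intro x hx
      have hx0 : x ≠ 0 := norm_pos_iff.mp hx.1
      intro h
      apply fderiv_norm_sq_ne_zero hx0
      have h5 : fderiv ℝ (fun y : Cn n => 1 - ‖y‖ ^ 2) x = - fderiv ℝ (fun y : Cn n => ‖y‖ ^ 2) x := by
        rw [fderiv_const_sub]
      rw [h5] at h
      exact neg_eq_zero.mp h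
    · ext x
      constructor
      · rintro ⟨hx1, hx2⟩
        refine ⟨hx2, ?_⟩
        show 1 - ‖x‖ ^ 2 < 0
        nlinarith [hx1.1]
      · rintro ⟨hx1, hx2⟩
        refine ⟨⟨?_, hx1.2⟩, hx1⟩
        have hx2' : 1 - ‖x‖ ^ 2 < 0 := hx2
        by_contra hle
        push Not at hle
        nlinarith [hx1.1]
  · -- outer sphere
    refine ⟨{x : Cn n | 1 < ‖x‖}, ?_, ?_, fun x => ‖x‖ ^ 2 - 4, ?_, ?_, ?_⟩
    · exact isOpen_lt continuous_const continuous_norm
    · show 1 < ‖p‖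
      rw [h4]; norm_num
    · apply ContDiff.contDiffOn
      exact (contDiff_norm_sq ℝ).sub contDiff_const
    · intro x hx
      have hx' : 1 < ‖x‖ := hx
      have hx0 : x ≠ 0 := norm_pos_iff.mp (by linarith)
      intro h
      apply fderiv_norm_sq_ne_zero hx0
      have h5 : fderiv ℝ (fun y : Cn n => ‖y‖ ^ 2 - 4) x = fderiv ℝ (fun y : Cn n => ‖y‖ ^ 2) x := by
        rw [fderiv_sub_const]
      rw [h5] at h
      exact h
    · ext x
      constructor
      · rintro ⟨hx1, hx2⟩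
        refine ⟨hx2, ?_⟩
        show ‖x‖ ^ 2 - 4 < 0
        nlinarith [hx1.1, hx1.2]
      · rintro ⟨hx1, hx2⟩
        have hx1' : 1 < ‖x‖ := hx1
        refine ⟨⟨hx1, ?_⟩, hx1⟩
        have hx2' : ‖x‖ ^ 2 - 4 < 0 := hx2
        by_contra hle
        push Not at hle
        nlinarith

/-- The key maps: for `z, w` in the shell and `m < 2` there is a holomorphic map `Φ` fixing `z` and
`w` and sending `{1 ≤ ‖x‖ ≤ m}` into the (open) shell. -/
lemma exists_phi {n : ℕ} {z w : Cn n} (hz : z ∈ Shell n) (hw : w ∈ Shell n) {m : ℝ} (hm : m < 2) :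
    ∃ Φ : Cn n → Cn n, Differentiable ℂ Φ ∧ Φ z = z ∧ Φ w = w ∧
      ∀ x, 1 ≤ ‖x‖ → ‖x‖ ≤ m → Φ x ∈ Shell n := by
  have hz1 : 1 < ‖z‖ := hz.1
  have hw1 : 1 < ‖w‖ := hw.1
  have hz0 : 0 < ‖z‖ := by linarith
  have hw0 : 0 < ‖w‖ := by linarith
  -- the linear forms
  set L : Cn n → Cn n → ℂ := fun a x => (inner ℂ a x : ℂ) / ((‖a‖ : ℂ) ^ 2) with hL
  have hLself : ∀ a : Cn n, 0 < ‖a‖ → L a a = 1 := by
    intro a ha
    simp only [hL]
    rw [inner_self_eq_norm_sq_to_K]
    have : ((‖a‖ : ℝ) : ℂ) ≠ 0 := by exact_mod_cast ha.ne'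
    exact div_self (pow_ne_zero 2 this)
  have hLnorm : ∀ a x : Cn n, 0 < ‖a‖ → ‖L a x‖ ≤ ‖x‖ / ‖a‖ := by
    intro a x ha
    simp only [hL]
    rw [norm_div, norm_pow, Complex.norm_real, norm_norm]
    have h1 : ‖(inner ℂ a x : ℂ)‖ ≤ ‖a‖ * ‖x‖ := norm_inner_le_norm a x
    rw [div_le_div_iff₀ (by positivity) ha]
    nlinarith [norm_nonneg x, norm_nonneg a]
  have hLdiff : ∀ a : Cn n, Differentiable ℂ (L a) := by
    intro a
    have h1 : Differentiable ℂ (fun x : Cn n => (innerSL ℂ a) x * ((‖a‖ : ℂ) ^ 2)⁻¹) :=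
      (innerSL ℂ a).differentiable.mul_const _
    exact h1
  -- the radius
  set s : ℝ := (1 + min ‖z‖ ‖w‖) / 2 with hs
  have hmin : 1 < min ‖z‖ ‖w‖ := lt_min hz1 hw1
  have hs1 : 1 < s := by rw [hs]; linarith
  have hsz : s < ‖z‖ := by
    have := min_le_left ‖z‖ ‖w‖
    rw [hs]; linarith
  have hsw : s < ‖w‖ := by
    have := min_le_right ‖z‖ ‖w‖
    rw [hs]; linarith
  set q : ℝ := max (s / ‖z‖) (s / ‖w‖) with hq
  have hq1 : q < 1 := max_lt ((div_lt_one hz0).mpr hsz) ((div_lt_one hw0).mpr hsw)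
  have hq0 : 0 ≤ q := le_max_of_le_left (by positivity)
  obtain ⟨N, hN⟩ := exists_pow_lt_of_lt_one (by norm_num : (0 : ℝ) < 1 / 10) hq1
  set P : Cn n → ℂ := fun x => (1 - L z x ^ N) * (1 - L w x ^ N) with hP
  have hPdiff : Differentiable ℂ P := by
    simp only [hP]
    exact ((differentiable_const 1).sub ((hLdiff z).pow N)).mul
      ((differentiable_const 1).sub ((hLdiff w).pow N))
  have hPz : P z = 0 := by
    simp only [hP]; rw [hLself z hz0]; simp
  have hPw : P w = 0 := by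
    simp only [hP]; rw [hLself w hw0]; simp
  have hPsmall : ∀ x : Cn n, ‖x‖ ≤ s → 1 / 2 ≤ (P x).re := by
    intro x hx
    have ha : ‖L z x ^ N‖ ≤ 1 / 10 := by
      rw [norm_pow]
      have h1 : ‖L z x‖ ≤ q := by
        refine (hLnorm z x hz0).trans (le_trans ?_ (le_max_left _ _))
        gcongr
      exact (pow_le_pow_left₀ (norm_nonneg _) h1 N).trans hN.le
    have hb : ‖L w x ^ N‖ ≤ 1 / 10 := by
      rw [norm_pow]
      have h1 : ‖L w x‖ ≤ q := by
        refine (hLnorm w x hw0).trans (le_trans ?_ (le_max_right _ _))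
        gcongr
      exact (pow_le_pow_left₀ (norm_nonneg _) h1 N).trans hN.le
    set a := L z x ^ N
    set b := L w x ^ N
    have hPx : P x = 1 - a - b + a * b := by
      simp only [hP]; ring
    rw [hPx]
    have h1 : (1 - a - b + a * b).re = 1 - a.re - b.re + (a * b).re := by simp
    rw [h1]
    have h2 := (Complex.abs_re_le_norm a)
    have h3 := (Complex.abs_re_le_norm b)
    have h4 := (Complex.abs_re_le_norm (a * b))
    rw [norm_mul] at h4
    have h5 : ‖a‖ * ‖b‖ ≤ 1 / 10 * (1 / 10) := by gcongr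
    have h6 := le_abs_self a.re
    have h7 := le_abs_self b.re
    have h8 := neg_abs_le (a * b).re
    linarith
  set C : ℝ := (1 + 2 ^ N) * (1 + 2 ^ N) with hC
  have hCpos : 0 < C := by positivity
  have hPbig : ∀ x : Cn n, ‖x‖ ≤ 2 → ‖P x‖ ≤ C := by
    intro x hx
    have hone : ∀ a : Cn n, 1 < ‖a‖ → ‖1 - L a x ^ N‖ ≤ 1 + 2 ^ N := by
      intro a ha
      refine (norm_sub_le _ _).trans ?_
      rw [norm_one, norm_pow]
      have h1 : ‖L a x‖ ≤ 2 := by
        refine (hLnorm a x (by linarith)).trans ?_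
        rw [div_le_iff₀ (by linarith)]
        nlinarith
      have := pow_le_pow_left₀ (norm_nonneg _) h1 N
      linarith
    simp only [hP]
    rw [norm_mul]
    exact mul_le_mul (hone z hz1) (hone w hw1) (norm_nonneg _) (by positivity)
  -- choose ε
  set m' : ℝ := max m 1 with hm'
  have hm'1 : 1 ≤ m' := le_max_right _ _
  have hm'2 : m' < 2 := max_lt hm (by norm_num)
  obtain ⟨ε, hε0, hε1, hε2⟩ : ∃ ε : ℝ, 0 < ε ∧ ε * C < 1 - 1 / s ∧ ε * C < 2 / m' - 1 := by
    have h1 : 0 < 1 - 1 / s := by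
      rw [sub_pos, div_lt_one (by linarith)]; exact hs1
    have h2 : 0 < 2 / m' - 1 := by
      rw [sub_pos, one_lt_div (by linarith)]; exact hm'2
    refine ⟨min (1 - 1 / s) (2 / m' - 1) / (2 * C), by positivity, ?_, ?_⟩
    · have h3 : min (1 - 1 / s) (2 / m' - 1) / (2 * C) * C = min (1 - 1 / s) (2 / m' - 1) / 2 := by
        field_simp
      rw [h3]
      have := min_le_left (1 - 1 / s) (2 / m' - 1)
      linarith
    · have h3 : min (1 - 1 / s) (2 / m' - 1) / (2 * C) * C = min (1 - 1 / s) (2 / m' - 1) / 2 := by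
        field_simp
      rw [h3]
      have := min_le_right (1 - 1 / s) (2 / m' - 1)
      linarith
  refine ⟨fun x => (1 + (ε : ℂ) * P x) • x, ?_, ?_, ?_, ?_⟩
  · exact ((differentiable_const 1).add (hPdiff.const_mul _)).smul differentiable_id
  · simp [hPz]
  · simp [hPw]
  · intro x hx1 hxm
    have hxm' : ‖x‖ ≤ m' := hxm.trans (le_max_left _ _)
    have hx2 : ‖x‖ ≤ 2 := hxm'.trans hm'2.le
    have hx0 : 0 < ‖x‖ := by linarith
    have hεP : ‖(ε : ℂ) * P x‖ ≤ ε * C := by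
      rw [norm_mul, Complex.norm_real, Real.norm_eq_abs, abs_of_pos hε0]
      have := hPbig x hx2
      gcongr
    have hnorm : ‖(1 + (ε : ℂ) * P x) • x‖ = ‖1 + (ε : ℂ) * P x‖ * ‖x‖ := norm_smul _ _
    constructor
    · show 1 < ‖(1 + (ε : ℂ) * P x) • x‖
      rw [hnorm]
      by_cases hxs : ‖x‖ ≤ s
      · have h1 := hPsmall x hxs
        have h2 : 1 + ε / 2 ≤ ‖1 + (ε : ℂ) * P x‖ := by
          have h3 : (1 + (ε : ℂ) * P x).re ≤ ‖1 + (ε : ℂ) * P x‖ := Complex.re_le_norm _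
          have h4 : (1 + (ε : ℂ) * P x).re = 1 + ε * (P x).re := by
            simp
          rw [h4] at h3
          nlinarith
        nlinarith
      · push Not at hxs
        have h2 : 1 - ε * C ≤ ‖1 + (ε : ℂ) * P x‖ := by
          have h3 := norm_sub_le (1 + (ε : ℂ) * P x) ((ε : ℂ) * P x)
          rw [add_sub_cancel_right, norm_one] at h3
          linarith
        have h3 : 1 / s < 1 - ε * C := by linarith
        have h4 : 1 / s < ‖1 + (ε : ℂ) * P x‖ := lt_of_lt_of_le h3 h2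
        calc (1 : ℝ) = 1 / s * s := by field_simp
          _ < ‖1 + (ε : ℂ) * P x‖ * ‖x‖ := by
            apply mul_lt_mul'' h4 hxs (by positivity) (by linarith)
    · show ‖(1 + (ε : ℂ) * P x) • x‖ < 2
      rw [hnorm]
      have h2 : ‖1 + (ε : ℂ) * P x‖ ≤ 1 + ε * C := by
        refine (norm_add_le _ _).trans ?_
        rw [norm_one]; linarith
      have h3 : 1 + ε * C < 2 / m' := by linarith
      calc ‖1 + (ε : ℂ) * P x‖ * ‖x‖ ≤ (1 + ε * C) * m' := by
            apply mul_le_mul h2 hxm' hx0.le (by positivity)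
        _ < 2 / m' * m' := by
            apply mul_lt_mul_of_pos_right h3 (by linarith)
        _ = 2 := by field_simp

/-- Lower semicontinuity of the Lempert function of the shell. -/
lemma lempert_lower {n : ℕ} {z w : Cn n} (hz : z ∈ Shell n) (hw : w ∈ Shell n) {c : ℝ≥0∞}
    (hc : c < lempert (Shell n) z w) :
    ∀ᶠ p in 𝓝[Shell n ×ˢ Shell n] (z, w), c < lempert (Shell n) p.1 p.2 := by
  by_contra hcon
  rw [not_eventually] at hcon
  obtain ⟨c', hcc', hc'⟩ := exists_between hc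
  have hc'top : c' ≠ ⊤ := (lt_of_lt_of_le hc' le_top).ne
  set T : ℝ := Real.tanh c'.toReal with hT
  have hT1 : T < 1 := Real.tanh_lt_one _
  -- the index type of bad points
  set S : Set (Cn n × Cn n) := {p | lempert (Shell n) p.1 p.2 ≤ c} with hS
  have hfreq : ∃ᶠ p in 𝓝 (z, w), p ∈ S := by
    have h1 : ∃ᶠ p in 𝓝[Shell n ×ˢ Shell n] (z, w), p ∈ S := by
      refine hcon.mono ?_
      intro p hp
      exact not_lt.mp hp
    exact h1.filter_mono nhdsWithin_le_nhds
  have hne : NeBot (comap (fun p : S => (p : Cn n × Cn n)) (𝓝 (z, w))) := by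
    rw [← mem_closure_iff_comap_neBot]
    exact mem_closure_iff_frequently.mpr hfreq
  set U : Ultrafilter S := Ultrafilter.of (comap (fun p : S => (p : Cn n × Cn n)) (𝓝 (z, w)))
  have hU : Tendsto (fun p : S => (p : Cn n × Cn n)) U (𝓝 (z, w)) := by
    have h1 := Ultrafilter.of_le (comap (fun p : S => (p : Cn n × Cn n)) (𝓝 (z, w)))
    exact tendsto_comap.mono_left h1
  -- choose discs
  have hdisc : ∀ p : S, ∃ lam : ℂ, ∃ f : ℂ → Cn n, ‖lam‖ ≤ T ∧ DifferentiableOn ℂ f (ball 0 1) ∧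
      MapsTo f (ball 0 1) (Shell n) ∧ f 0 = p.1.1 ∧ f lam = p.1.2 := by
    intro p
    have h1 : lempert (Shell n) p.1.1 p.1.2 < c' := lt_of_le_of_lt p.2 hcc'
    rw [lempert_lt_iff] at h1
    obtain ⟨lam, hlam, ⟨f, hf1, hf2, hf3, hf4⟩, hlc⟩ := h1
    refine ⟨lam, f, ?_, hf1, hf2, hf3, hf4⟩
    have h2 : Real.artanh ‖lam‖ < c'.toReal := by
      rw [ENNReal.ofReal_lt_iff_lt_toReal (Real.artanh_nonneg (norm_nonneg _)) hc'top] at hlc
      exact hlc
    have hlam' : ‖lam‖ ∈ Ioo (-1 : ℝ) 1 := ⟨by linarith [norm_nonneg lam], hlam⟩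
    have hT' : T ∈ Ioo (-1 : ℝ) 1 := ⟨Real.neg_one_lt_tanh _, hT1⟩
    have h3 : Real.artanh ‖lam‖ < Real.artanh T := by
      rw [hT, Real.artanh_tanh]; exact h2
    exact ((Real.artanh_lt_artanh_iff hlam' hT').mp h3).le
  choose lam f hlam hf hfS hf0 hfl using hdisc
  -- compact closed shell
  set K : Set (Cn n) := {x | 1 ≤ ‖x‖ ∧ ‖x‖ ≤ 2} with hK
  have hKc : IsCompact K := by
    have h1 : K = closedBall 0 2 ∩ {x : Cn n | 1 ≤ ‖x‖} := by
      ext x
      simp only [hK, mem_ofPred_eq, mem_inter_iff, mem_closedBall_zero_iff]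
      tauto
    rw [h1]
    exact (isCompact_closedBall _ _).inter_right (isClosed_le continuous_const continuous_norm)
  have hfK : ∀ p : S, MapsTo (f p) (ball 0 1) K := fun p ζ hζ => ⟨(hfS p hζ).1.le, (hfS p hζ).2.le⟩
  obtain ⟨g, mu, hg, hgK, hmu, hg0, hgmu⟩ := exists_limit_disc U hKc f hf hfK lam T hT1 hlam
    (z := z) (w := w)
    (by
      simp only [hf0]
      exact (continuous_fst.tendsto _).comp hU)
    (by
      simp only [hfl]
      exact (continuous_snd.tendsto _).comp hU)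
  -- maximum principle
  have hg2 : ∀ ζ ∈ ball (0 : ℂ) 1, ‖g ζ‖ < 2 := by
    intro ζ hζ
    rcases (hgK hζ).2.lt_or_eq with h | h
    · exact h
    · exfalso
      have hmax : IsMaxOn (norm ∘ g) (ball (0 : ℂ) 1) ζ := by
        intro ξ hξ
        show ‖g ξ‖ ≤ ‖g ζ‖
        rw [h]; exact (hgK hξ).2
      have := Complex.norm_eqOn_of_isPreconnected_of_isMaxOn
        (convex_ball (0 : ℂ) 1).isPreconnected isOpen_ball hg hζ hmax
      have h1 := this (mem_ball_self one_pos : (0 : ℂ) ∈ ball (0 : ℂ) 1)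
      simp only [Function.comp_apply, Function.const_apply] at h1
      rw [hg0, h] at h1
      linarith [hz.2]
  -- rescale
  have hmu1 : ‖mu‖ < 1 := lt_of_le_of_lt hmu hT1
  have hmuc : ENNReal.ofReal (Real.artanh ‖mu‖) < lempert (Shell n) z w := by
    refine lt_of_le_of_lt ?_ hc'
    apply ENNReal.ofReal_le_of_le_toReal
    have h1 : Real.artanh ‖mu‖ ≤ Real.artanh T :=
      Real.artanh_le_artanh (by linarith [norm_nonneg mu]) hT1 hmu
    rwa [hT, Real.artanh_tanh] at h1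
  obtain ⟨r, hr1, hr0, hr2, hr3, hr4⟩ := exists_rescale (norm_nonneg mu) hmu1 hmuc
  -- the maximum norm on the smaller disc
  obtain ⟨ζ₀, hζ₀, hmax⟩ := (isCompact_closedBall (0 : ℂ) r).exists_isMaxOn
    ⟨0, by simp [hr0.le]⟩
    ((hg.continuousOn.mono (closedBall_subset_ball hr2)).norm)
  obtain ⟨Φ, hΦ, hΦz, hΦw, hΦS⟩ := exists_phi hz hw (m := ‖g ζ₀‖)
    (hg2 ζ₀ (closedBall_subset_ball hr2 hζ₀))
  have hrc : (r : ℂ) ≠ 0 := by exact_mod_cast hr0.ne'
  have hmun : ‖mu / (r : ℂ)‖ = ‖mu‖ / r := by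
    rw [norm_div, Complex.norm_real, Real.norm_eq_abs, abs_of_pos hr0]
  have hthrough : DiscThrough (Shell n) z w (mu / r) := by
    refine ⟨fun ζ => Φ (g (r * ζ)), ?_, ?_, ?_, ?_⟩
    · exact hΦ.comp_differentiableOn (differentiableOn_rescale hg hr0 hr2.le)
    · intro ζ hζ
      rw [mem_ball_zero_iff] at hζ
      have h1 : (r : ℂ) * ζ ∈ closedBall (0 : ℂ) r := by
        rw [mem_closedBall_zero_iff, norm_mul, Complex.norm_real, Real.norm_eq_abs, abs_of_pos hr0]
        nlinarith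
      apply hΦS
      · exact (hgK (closedBall_subset_ball hr2 h1)).1
      · exact hmax h1
    · show Φ (g (r * 0)) = z
      rw [mul_zero, hg0, hΦz]
    · show Φ (g (r * (mu / r))) = w
      rw [mul_div_cancel₀ _ hrc, hgmu, hΦw]
  have hfinal := lempert_le (by rw [hmun]; exact hr4) hthrough
  rw [hmun] at hfinal
  exact absurd hr3 (not_lt.mpr hfinal)

lemma continuousOn_lempert (n : ℕ) :
    ContinuousOn (fun p : Cn n × Cn n => lempert (Shell n) p.1 p.2) (Shell n ×ˢ Shell n) := by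
  rintro ⟨z, w⟩ ⟨hz, hw⟩
  apply tendsto_order.mpr
  constructor
  · intro c hc
    exact lempert_lower hz hw hc
  · intro c hc
    exact (lempert_upper (isOpen_shell n) hz hc).filter_mono nhdsWithin_le_nhds

/-- The shell is not pseudoconvex in dimension at least two. -/
lemma not_isPseudoconvex {n : ℕ} (hn : 2 ≤ n) : ¬ IsPseudoconvex (Shell n) := by
  rintro ⟨u, ⟨hucont, humean⟩, hexh⟩
  set e0 : Cn n := EuclideanSpace.single ⟨0, by omega⟩ (1 : ℂ) with he0
  set e1 : Cn n := EuclideanSpace.single ⟨1, by omega⟩ (1 : ℂ) with he1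
  have hortho : (inner ℂ e0 e1 : ℂ) = 0 := by
    rw [he0, he1, EuclideanSpace.inner_single_left]
    simp
  have hn0 : ‖e0‖ = 1 := by rw [he0]; simp
  have hn1 : ‖e1‖ = 1 := by rw [he1]; simp
  have hnorm : ∀ (s : ℝ) (ζ : ℂ), ‖(1 + s : ℝ) • e0 + ζ • e1‖ ^ 2 = (1 + s) ^ 2 + ‖ζ‖ ^ 2 := by
    intro s ζ
    have h1 : ((1 + s : ℝ) • e0 : Cn n) = ((1 + s : ℝ) : ℂ) • e0 := by
      rw [← Complex.coe_smul]
    rw [h1]
    rw [@norm_add_sq ℂ]
    rw [inner_smul_left, inner_smul_right, hortho]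
    rw [norm_smul, norm_smul, hn0, hn1, Complex.norm_real, Real.norm_eq_abs]
    simp
  -- the compact set of boundary circles
  set C : Set (Cn n) := (fun p : ℝ × ℂ => (1 + p.1 : ℝ) • e0 + p.2 • e1) ''
    (Icc 0 (1 / 2) ×ˢ sphere 0 1) with hC
  have hCc : IsCompact C := by
    apply (isCompact_Icc.prod (isCompact_sphere _ _)).image
    fun_prop
  have hCS : C ⊆ Shell n := by
    rintro _ ⟨⟨s, ζ⟩, ⟨hs, hζ⟩, rfl⟩
    simp only at hs hζ ⊢
    rw [mem_sphere_zero_iff_norm] at hζ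
    have h1 := hnorm s ζ
    rw [hζ] at h1
    obtain ⟨hs0, hs1⟩ := hs
    have h2 := norm_nonneg ((1 + s : ℝ) • e0 + ζ • e1)
    constructor
    · show 1 < ‖(1 + s : ℝ) • e0 + ζ • e1‖
      by_contra hle
      push Not at hle
      nlinarith
    · show ‖(1 + s : ℝ) • e0 + ζ • e1‖ < 2
      by_contra hle
      push Not at hle
      nlinarith
  obtain ⟨M, hM⟩ := (hCc.bddAbove_image (hucont.mono hCS))
  have hMC : ∀ x ∈ C, u x ≤ M := fun x hx => hM ⟨x, hx, rfl⟩
  obtain ⟨K, hK, hKS, hKsub⟩ := hexh M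
  -- centers belong to K
  have hcenter : ∀ s : ℝ, 0 < s → s ≤ 1 / 2 → (1 + s : ℝ) • e0 ∈ K := by
    intro s hs0 hs1
    apply hKsub
    have hdisc : ∀ ζ : ℂ, ‖ζ‖ ≤ 1 → (1 + s : ℝ) • e0 + ζ • e1 ∈ Shell n := by
      intro ζ hζ
      have h1 := hnorm s ζ
      have h2 := norm_nonneg ((1 + s : ℝ) • e0 + ζ • e1)
      have h3 := norm_nonneg ζ
      constructor
      · show 1 < ‖(1 + s : ℝ) • e0 + ζ • e1‖
        by_contra hle
        push Not at hle
        nlinarith
      · show ‖(1 + s : ℝ) • e0 + ζ • e1‖ < 2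
        by_contra hle
        push Not at hle
        nlinarith
    refine ⟨?_, ?_⟩
    · have := hdisc 0 (by simp)
      simpa using this
    · refine (humean _ e1 hdisc).trans ?_
      apply Real.circleAverage_mono_on_of_le_circle
      · apply ContinuousOn.circleIntegrable zero_le_one
        apply hucont.comp
        · fun_prop
        · intro ζ hζ
          rw [mem_sphere_zero_iff_norm] at hζ
          exact hdisc ζ hζ.le
      · intro ζ hζ
        rw [abs_one, mem_sphere_zero_iff_norm] at hζ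
        apply hMC
        exact ⟨(s, ζ), ⟨⟨hs0.le, hs1⟩, by rw [mem_sphere_zero_iff_norm]; exact hζ⟩, rfl⟩
  -- limit
  have hlim : Tendsto (fun s : ℝ => (1 + s : ℝ) • e0) (𝓝[>] 0) (𝓝 e0) := by
    have h1 : ContinuousAt (fun s : ℝ => (1 + s : ℝ) • e0) 0 := by fun_prop
    have h2 : Tendsto (fun s : ℝ => (1 + s : ℝ) • e0) (𝓝 0) (𝓝 ((1 + (0 : ℝ)) • e0)) := h1
    rw [add_zero, one_smul] at h2
    exact h2.mono_left nhdsWithin_le_nhds
  have hmem : e0 ∈ K := by
    apply hK.isClosed.mem_of_tendsto hlim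
    have h1 : ∀ᶠ s in 𝓝[>] (0 : ℝ), 0 < s ∧ s < 1 / 2 := Ioo_mem_nhdsGT (by norm_num)
    filter_upwards [h1] with s hs
    exact hcenter s hs.1 hs.2.le
  have := (hKS hmem).1
  rw [hn0] at this
  exact lt_irrefl _ this

/-- A holomorphic map of the disc into a thin neighbourhood of `[0, 1]` hitting `0` and `1`. -/
lemma exists_thin_map {δ : ℝ} (hδ : 0 < δ) : ∃ (g : ℂ → ℂ) (lam : ℂ), ‖lam‖ < 1 ∧
    DifferentiableOn ℂ g (ball 0 1) ∧ g 0 = 0 ∧ g lam = 1 ∧
    ∀ ζ ∈ ball (0 : ℂ) 1, ∃ t ∈ Icc (0 : ℝ) 1, ‖g ζ - t‖ < δ := by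
  have hpi := Real.pi_pos
  set c : ℝ := min 1 δ / Real.pi with hc
  have hc0 : 0 < c := by positivity
  have hcc : (c : ℂ) ≠ 0 := by exact_mod_cast hc0.ne'
  have hW : ∀ ζ ∈ ball (0 : ℂ) 1, 0 < ((1 + ζ) / (1 - ζ)).re := by
    intro ζ hζ
    rw [mem_ball_zero_iff] at hζ
    have h1 : 1 - ζ ≠ 0 := by
      intro h
      have : ζ = 1 := (sub_eq_zero.mp h).symm
      rw [this, norm_one] at hζ
      exact lt_irrefl _ hζ
    have h2 : 0 < Complex.normSq (1 - ζ) := Complex.normSq_pos.mpr h1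
    have h3 : Complex.normSq ζ < 1 := by
      rw [Complex.normSq_eq_norm_sq]
      nlinarith [norm_nonneg ζ]
    rw [Complex.div_re]
    have h4 : (1 + ζ).re * (1 - ζ).re / Complex.normSq (1 - ζ) +
        (1 + ζ).im * (1 - ζ).im / Complex.normSq (1 - ζ) =
        (1 - Complex.normSq ζ) / Complex.normSq (1 - ζ) := by
      rw [← add_div]
      congr 1
      rw [Complex.normSq_apply]
      simp
      ring
    rw [h4]
    apply div_pos _ h2
    linarith
  set θ : ℂ → ℂ := fun ζ => c * Complex.log ((1 + ζ) / (1 - ζ)) with hθ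
  set g : ℂ → ℂ := fun ζ => (1 - Complex.cos (θ ζ)) / 2 with hg
  have hθdiff : DifferentiableOn ℂ θ (ball 0 1) := by
    intro ζ hζ
    apply DifferentiableAt.differentiableWithinAt
    have h1 : 1 - ζ ≠ 0 := by
      intro h
      have h2 := hW ζ hζ
      rw [h, div_zero] at h2
      simp at h2
    have h2 : DifferentiableAt ℂ (fun ζ : ℂ => (1 + ζ) / (1 - ζ)) ζ := by
      apply DifferentiableAt.div
      · fun_prop
      · fun_prop
      · exact h1
    have h3 : (1 + ζ) / (1 - ζ) ∈ Complex.slitPlane := Or.inl (hW ζ hζ)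
    exact (h2.clog h3).const_mul _
  set E : ℝ := Real.exp (Real.pi / c) with hE
  have hE1 : 1 < E := by
    rw [hE]
    exact Real.one_lt_exp_iff.mpr (by positivity)
  have hEp : 0 < E + 1 := by linarith
  set l : ℝ := (E - 1) / (E + 1) with hl
  have hl0 : 0 ≤ l := div_nonneg (by linarith) hEp.le
  have hl1 : l < 1 := by
    rw [hl, div_lt_one hEp]; linarith
  refine ⟨g, (l : ℂ), ?_, ?_, ?_, ?_, ?_⟩
  · rw [Complex.norm_real, Real.norm_eq_abs, abs_of_nonneg hl0]; exact hl1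
  · simp only [hg]
    have h1 : DifferentiableOn ℂ (fun ζ => Complex.cos (θ ζ)) (ball 0 1) := hθdiff.ccos
    have h2 : DifferentiableOn ℂ (fun ζ => (1 - Complex.cos (θ ζ)) * (2 : ℂ)⁻¹) (ball 0 1) :=
      ((differentiableOn_const 1).sub h1).mul_const _
    simpa [div_eq_mul_inv] using h2
  · simp [hg, hθ]
  · have h1 : ((1 : ℂ) + (l : ℂ)) / (1 - (l : ℂ)) = ((E : ℝ) : ℂ) := by
      have h2 : (1 + l) / (1 - l) = E := by
        rw [hl]
        field_simp
        ring
      rw [← h2]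
      push_cast
      ring
    simp only [hg, hθ]
    rw [h1, ← Complex.ofReal_log (by linarith), hE, Real.log_exp]
    have h3 : (c : ℂ) * ((Real.pi / c : ℝ) : ℂ) = (Real.pi : ℂ) := by
      push_cast
      field_simp
    rw [h3, Complex.cos_pi]
    norm_num
  · intro ζ hζ
    set W : ℂ := (1 + ζ) / (1 - ζ) with hWdef
    set a : ℝ := c * Real.log ‖W‖ with ha
    set b : ℝ := c * Complex.arg W with hb
    have hθab : θ ζ = (a : ℂ) + (b : ℂ) * Complex.I := by
      simp only [hθ]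
      rw [← hWdef, Complex.log]
      rw [ha, hb]
      push_cast
      ring
    have hbarg : |Complex.arg W| < Real.pi / 2 := by
      rw [Complex.abs_arg_lt_pi_div_two_iff]
      left; exact hW ζ hζ
    have hbabs : |b| < min 1 δ / 2 := by
      rw [hb, abs_mul, abs_of_pos hc0]
      calc c * |Complex.arg W| < c * (Real.pi / 2) := by gcongr
        _ = min 1 δ / 2 := by rw [hc]; field_simp
    have hb1 : |b| ≤ 1 := by
      have := min_le_left 1 δ
      linarith
    refine ⟨(1 - Real.cos a) / 2, ⟨?_, ?_⟩, ?_⟩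
    · have := Real.cos_le_one a; linarith
    · have := Real.neg_one_le_cos a; linarith
    · have h1 : g ζ - (((1 - Real.cos a) / 2 : ℝ) : ℂ) =
          -((Complex.exp ((a : ℂ) * Complex.I) * (Complex.exp (((-b : ℝ) : ℂ)) - 1) +
            Complex.exp (((-a : ℝ) : ℂ) * Complex.I) * (Complex.exp ((b : ℝ) : ℂ) - 1)) / 4) := by
        simp only [hg]
        rw [hθab]
        push_cast
        rw [Complex.cos, Complex.cos]
        have e1 : ((a : ℂ) + b * Complex.I) * Complex.I = (a : ℂ) * Complex.I + (-b : ℂ) := by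
          rw [add_mul, mul_assoc, Complex.I_mul_I]; ring
        have e2 : -((a : ℂ) + b * Complex.I) * Complex.I = (-a : ℂ) * Complex.I + (b : ℂ) := by
          have : -((a : ℂ) + b * Complex.I) * Complex.I =
            (-a : ℂ) * Complex.I - b * (Complex.I * Complex.I) := by ring
          rw [this, Complex.I_mul_I]; ring
        rw [e1, e2, Complex.exp_add, Complex.exp_add]
        ring
      rw [h1, norm_neg, norm_div]
      have h4 : ‖(4 : ℂ)‖ = 4 := by norm_num
      rw [h4]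
      have h2 : ‖Complex.exp ((a : ℂ) * Complex.I) * (Complex.exp (((-b : ℝ) : ℂ)) - 1) +
            Complex.exp (((-a : ℝ) : ℂ) * Complex.I) * (Complex.exp ((b : ℝ) : ℂ) - 1)‖ ≤
            2 * |b| + 2 * |b| := by
        refine (norm_add_le _ _).trans ?_
        rw [norm_mul, norm_mul, Complex.norm_exp_ofReal_mul_I, Complex.norm_exp_ofReal_mul_I,
          one_mul, one_mul]
        have h5 : ∀ x : ℝ, |x| ≤ 1 → ‖Complex.exp ((x : ℝ) : ℂ) - 1‖ ≤ 2 * |x| := by
          intro x hx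
          rw [← Complex.ofReal_exp, ← Complex.ofReal_one, ← Complex.ofReal_sub, Complex.norm_real,
            Real.norm_eq_abs]
          exact Real.abs_exp_sub_one_le hx
        have h6 := h5 (-b) (by rwa [abs_neg])
        have h7 := h5 b hb1
        rw [abs_neg] at h6
        linarith
      have h8 : min 1 δ ≤ δ := min_le_right _ _
      have h9 : (0 : ℝ) < min 1 δ := by positivity
      rw [div_lt_iff₀ (by norm_num)]
      linarith

/-- An entire curve through two points of the shell, staying in the shell over `[0, 1]`. -/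
lemma exists_curve {n : ℕ} {z w : Cn n} (hz : z ∈ Shell n) (hw : w ∈ Shell n) :
    ∃ p : ℂ → Cn n, Differentiable ℂ p ∧ p 0 = z ∧ p 1 = w ∧
      ∀ t ∈ Icc (0 : ℝ) 1, p (t : ℂ) ∈ Shell n := by
  have hz0 : 0 < ‖z‖ := by linarith [hz.1]
  have hw0 : 0 < ‖w‖ := by linarith [hw.1]
  obtain ⟨e1, he1⟩ : ∃ e : Cn n, e = ((‖z‖⁻¹ : ℝ) : ℂ) • z := ⟨_, rfl⟩
  obtain ⟨v, hv⟩ : ∃ e : Cn n, e = ((‖w‖⁻¹ : ℝ) : ℂ) • w := ⟨_, rfl⟩
  have he1n : ‖e1‖ = 1 := by
    rw [he1, norm_smul, Complex.norm_real, norm_inv, norm_norm, inv_mul_cancel₀ hz0.ne']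
  have hvn : ‖v‖ = 1 := by
    rw [hv, norm_smul, Complex.norm_real, norm_inv, norm_norm, inv_mul_cancel₀ hw0.ne']
  set a : ℝ := (inner ℂ e1 v : ℂ).re with ha
  have ha1 : |a| ≤ 1 := by
    have h1 : ‖(inner ℂ e1 v : ℂ)‖ ≤ ‖e1‖ * ‖v‖ := norm_inner_le_norm e1 v
    rw [he1n, hvn, mul_one] at h1
    exact (Complex.abs_re_le_norm _).trans h1
  -- the second unit vector
  obtain ⟨e2, he2n, he12, hve⟩ : ∃ e2 : Cn n, ‖e2‖ = 1 ∧ (inner ℂ e1 e2 : ℂ).re = 0 ∧
      v = ((a : ℝ) : ℂ) • e1 + ((Real.sqrt (1 - a ^ 2) : ℝ) : ℂ) • e2 := by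
    obtain ⟨y, hy⟩ : ∃ y : Cn n, y = v - ((a : ℝ) : ℂ) • e1 := ⟨_, rfl⟩
    have hinner : (inner ℂ e1 y : ℂ).re = 0 := by
      rw [hy, inner_sub_right, inner_smul_right, inner_self_eq_norm_sq_to_K, he1n]
      simp [ha]
    have hyn : ‖y‖ ^ 2 = 1 - a ^ 2 := by
      have h1 := @norm_add_sq ℂ (Cn n) _ _ _ y (((a : ℝ) : ℂ) • e1)
      have h2 : y + ((a : ℝ) : ℂ) • e1 = v := by rw [hy]; abel
      rw [h2, hvn, inner_smul_right, norm_smul, he1n] at h1
      have h3 : (inner ℂ y e1 : ℂ).re = 0 := by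
        rw [← inner_conj_symm, Complex.conj_re]; exact hinner
      have h4 : RCLike.re (((a : ℝ) : ℂ) * inner ℂ y e1) = 0 := by
        simp [h3]
      rw [h4, Complex.norm_real, Real.norm_eq_abs, mul_one, sq_abs] at h1
      linarith
    by_cases hy0 : y = 0
    · refine ⟨Complex.I • e1, ?_, ?_, ?_⟩
      · rw [norm_smul, Complex.norm_I, he1n, mul_one]
      · rw [inner_smul_right, inner_self_eq_norm_sq_to_K, he1n]
        simp
      · rw [hy0, norm_zero] at hyn
        have h1 : 1 - a ^ 2 = 0 := by linarith [hyn]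
        rw [h1, Real.sqrt_zero]
        have h2 : v = ((a : ℝ) : ℂ) • e1 := sub_eq_zero.mp (hy.symm.trans hy0)
        simp [← h2]
    · have hyp : 0 < ‖y‖ := norm_pos_iff.mpr hy0
      refine ⟨((‖y‖⁻¹ : ℝ) : ℂ) • y, ?_, ?_, ?_⟩
      · rw [norm_smul, Complex.norm_real, norm_inv, norm_norm, inv_mul_cancel₀ hyp.ne']
      · rw [inner_smul_right]
        simp [hinner]
      · rw [← hyn, Real.sqrt_sq hyp.le, smul_smul, ← Complex.ofReal_mul,
          mul_inv_cancel₀ hyp.ne', Complex.ofReal_one, one_smul, hy]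
        abel
  set φ : ℝ := Real.arccos a with hφ
  have hcosφ : Real.cos φ = a := Real.cos_arccos (by linarith [(abs_le.mp ha1).1])
    (abs_le.mp ha1).2
  have hsinφ : Real.sin φ = Real.sqrt (1 - a ^ 2) := Real.sin_arccos a
  set b : ℝ := Real.log (‖w‖ / ‖z‖) with hb
  refine ⟨fun t => (((‖z‖ : ℝ) : ℂ) * Complex.exp (t * b)) •
    (Complex.cos (φ * t) • e1 + Complex.sin (φ * t) • e2), ?_, ?_, ?_, ?_⟩
  · fun_prop
  · simp only [zero_mul, Complex.exp_zero, mul_one, mul_zero, Complex.cos_zero, Complex.sin_zero,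
      one_smul, zero_smul, add_zero]
    rw [he1, smul_smul, ← Complex.ofReal_mul, mul_inv_cancel₀ hz0.ne', Complex.ofReal_one, one_smul]
  · simp only [one_mul, mul_one]
    rw [← Complex.ofReal_cos, ← Complex.ofReal_sin, hcosφ, hsinφ, ← hve]
    rw [← Complex.ofReal_exp, hb, Real.exp_log (by positivity), ← Complex.ofReal_mul,
      mul_div_cancel₀ _ hz0.ne', hv, smul_smul, ← Complex.ofReal_mul, mul_inv_cancel₀ hw0.ne',
      Complex.ofReal_one, one_smul]
  · intro t ht
    have hunit : ‖Complex.cos (φ * t) • e1 + Complex.sin (φ * t) • e2‖ = 1 := by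
      have h1 := @norm_add_sq ℂ (Cn n) _ _ _ (Complex.cos (φ * t) • e1) (Complex.sin (φ * t) • e2)
      rw [norm_smul, norm_smul, he1n, he2n, inner_smul_left, inner_smul_right] at h1
      have h2 : Complex.cos ((φ : ℂ) * t) = ((Real.cos (φ * t) : ℝ) : ℂ) := by push_cast; rfl
      have h3 : Complex.sin ((φ : ℂ) * t) = ((Real.sin (φ * t) : ℝ) : ℂ) := by push_cast; rfl
      rw [h2, h3, Complex.norm_real, Complex.norm_real, Complex.conj_ofReal] at h1
      have h4 : RCLike.re (((Real.cos (φ * t) : ℝ) : ℂ) * (((Real.sin (φ * t) : ℝ) : ℂ) *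
          inner ℂ e1 e2)) = 0 := by
        rw [← mul_assoc, ← Complex.ofReal_mul]
        show (((Real.cos (φ * t) * Real.sin (φ * t) : ℝ) : ℂ) * inner ℂ e1 e2).re = 0
        rw [Complex.re_ofReal_mul, he12, mul_zero]
      rw [h4, mul_one, mul_one, Real.norm_eq_abs, Real.norm_eq_abs, sq_abs, sq_abs] at h1
      have h5 := Real.cos_sq_add_sin_sq (φ * t)
      have h6 : ‖((Real.cos (φ * t) : ℝ) : ℂ) • e1 + ((Real.sin (φ * t) : ℝ) : ℂ) • e2‖ ^ 2 = 1 := by
        linarith
      rw [h2, h3]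
      exact (pow_eq_one_iff_of_nonneg (norm_nonneg _) two_ne_zero).mp h6
    have hnorm : ‖(((‖z‖ : ℝ) : ℂ) * Complex.exp ((t : ℂ) * b)) •
        (Complex.cos (φ * t) • e1 + Complex.sin (φ * t) • e2)‖ = ‖z‖ * Real.exp (t * b) := by
      rw [norm_smul, hunit, mul_one, norm_mul, Complex.norm_real, norm_norm]
      rw [← Complex.ofReal_mul, ← Complex.ofReal_exp, Complex.norm_real, Real.norm_eq_abs,
        abs_of_pos (Real.exp_pos _)]
    have hlin : ‖z‖ * Real.exp (t * b) = Real.exp ((1 - t) * Real.log ‖z‖ + t * Real.log ‖w‖) := by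
      rw [hb, Real.log_div hw0.ne' hz0.ne']
      conv_lhs => rw [← Real.exp_log hz0]
      rw [← Real.exp_add, Real.exp_log hz0]
      congr 1
      ring
    have hlz : 0 < Real.log ‖z‖ := Real.log_pos hz.1
    have hlw : 0 < Real.log ‖w‖ := Real.log_pos hw.1
    have hlz2 : Real.log ‖z‖ < Real.log 2 := Real.log_lt_log hz0 hz.2
    have hlw2 : Real.log ‖w‖ < Real.log 2 := Real.log_lt_log hw0 hw.2
    obtain ⟨ht0, ht1⟩ := ht
    have hcases : 0 < (1 - t) * Real.log ‖z‖ + t * Real.log ‖w‖ ∧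
        (1 - t) * Real.log ‖z‖ + t * Real.log ‖w‖ < Real.log 2 := by
      rcases ht0.eq_or_lt with h | h
      · rw [← h]; constructor <;> linarith
      · constructor
        · have := mul_pos h hlw
          have h2 : 0 ≤ (1 - t) * Real.log ‖z‖ := mul_nonneg (by linarith) hlz.le
          linarith
        · have h1 : t * Real.log ‖w‖ < t * Real.log 2 := by gcongr
          have h2 : (1 - t) * Real.log ‖z‖ ≤ (1 - t) * Real.log 2 :=
            mul_le_mul_of_nonneg_left hlz2.le (by linarith)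
          nlinarith
    constructor
    · show 1 < ‖_‖
      rw [hnorm, hlin]
      exact Real.one_lt_exp_iff.mpr hcases.1
    · show ‖_‖ < 2
      rw [hnorm, hlin]
      calc Real.exp ((1 - t) * Real.log ‖z‖ + t * Real.log ‖w‖) < Real.exp (Real.log 2) :=
            Real.exp_lt_exp.mpr hcases.2
        _ = 2 := Real.exp_log (by norm_num)

/-- The Lempert function of the shell is finite. -/
lemma lempert_ne_top {n : ℕ} {z w : Cn n} (hz : z ∈ Shell n) (hw : w ∈ Shell n) :
    lempert (Shell n) z w ≠ ⊤ := by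
  obtain ⟨p, hp, hp0, hp1, hpS⟩ := exists_curve hz hw
  have hopen : IsOpen (p ⁻¹' Shell n) := (isOpen_shell n).preimage hp.continuous
  have hK : IsCompact ((fun t : ℝ => (t : ℂ)) '' Icc 0 1) :=
    isCompact_Icc.image Complex.continuous_ofReal
  have hKsub : (fun t : ℝ => (t : ℂ)) '' Icc 0 1 ⊆ p ⁻¹' Shell n := by
    rintro _ ⟨t, ht, rfl⟩
    exact hpS t ht
  obtain ⟨δ, hδ, hthick⟩ := hK.exists_thickening_subset_open hopen hKsub
  obtain ⟨g, lam, hlam, hg, hg0, hg1, hgδ⟩ := exists_thin_map hδ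
  have hthrough : DiscThrough (Shell n) z w lam := by
    refine ⟨fun ζ => p (g ζ), hp.comp_differentiableOn hg, ?_, ?_, ?_⟩
    · intro ζ hζ
      apply hthick
      obtain ⟨t, ht, htδ⟩ := hgδ ζ hζ
      rw [mem_thickening_iff]
      exact ⟨(t : ℂ), ⟨t, ht, rfl⟩, by rw [dist_eq_norm]; exact htδ⟩
    · show p (g 0) = z
      rw [hg0, hp0]
    · show p (g lam) = w
      rw [hg1, hp1]
  exact ne_top_of_le_ne_top ENNReal.ofReal_ne_top (lempert_le hlam hthrough)

/-- **A bounded non-pseudoconvex domain with smooth boundary and continuous Lempert function.**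
For every `n ≥ 2` there is a bounded domain `D ⊆ ℂⁿ` with `C^k` boundary for every `k` (real analytic
included) whose Lempert function is finite and continuous on `D × D`, but which is not
pseudoconvex. -/
theorem result (n : ℕ) (hn : 2 ≤ n) : ∃ D : Set (Cn n),
    IsOpen D ∧ IsConnected D ∧ Bornology.IsBounded D ∧
    (∀ k : WithTop ℕ∞, HasSmoothBoundary k D) ∧
    (∀ z ∈ D, ∀ w ∈ D, lempert D z w ≠ ⊤) ∧
    ContinuousOn (fun p : Cn n × Cn n => lempert D p.1 p.2) (D ×ˢ D) ∧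
    ¬ IsPseudoconvex D :=
  ⟨Shell n, isOpen_shell n, isConnected_shell (by omega), isBounded_shell n,
    hasSmoothBoundary_shell n, fun _ hz _ hw => lempert_ne_top hz hw, continuousOn_lempert n,
    not_isPseudoconvex hn⟩

end Pool.Agent.Results.MP_5a1ff8_an.ShellCounterexample
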